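import Pool.Agent.helper80.SV.Spec

/-!
# Project sv, module T1: semicontinuity on a curve.
-/

set_option autoImplicit false

namespace Pool.Agent.SV

open MvPolynomial Module

theorem T1_det {r : ℕ} {M : ℂ → Matrix (Fin r) (Fin r) ℂ}
    (h : ∀ i j, PolyFun (fun t => M t i j)) : PolyFun (fun t => (M t).det) := by
  simp only [Matrix.det_apply']
  refine PolyFun.sum _ fun σ _ => ?_
  exact (PolyFun.const _).mul (PolyFun.prod _ fun i _ => h _ _)

theorem T1 : T1_stmt := by
  intro E J _ _ _ _ B hB k t₀ hk
  classical
  have := Fintype.ofFinite J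
  let b := finBasis ℂ (LinearMap.range (B t₀))
  have hex : ∀ i, ∃ v, B t₀ v = (b i : J → ℂ) := fun i => (b i).2
  choose v hv using hex
  let ι : (Fin (finrank ℂ (LinearMap.range (B t₀))) → ℂ) →ₗ[ℂ] (J → ℂ) :=
    (LinearMap.range (B t₀)).subtype ∘ₗ (b.equivFun.symm : _ →ₗ[ℂ] LinearMap.range (B t₀))
  have hι : LinearMap.ker ι = ⊥ := by
    rw [LinearMap.ker_eq_bot]
    exact (Submodule.injective_subtype _).comp b.equivFun.symm.injective
  obtain ⟨L, hL⟩ := ι.exists_leftInverse_of_injective hι
  have hιb : ∀ i, ι (Pi.single i 1) = (b i : J → ℂ) := by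
    intro i
    change ((b.equivFun.symm (Pi.single i 1) : LinearMap.range (B t₀)) : J → ℂ) = _
    rw [Basis.equivFun_symm_apply]
    congr 1
    rw [Finset.sum_eq_single i]
    · simp
    · intro j _ hj
      simp [hj]
    · intro h
      exact absurd (Finset.mem_univ i) h
  let M : ℂ → Matrix (Fin (finrank ℂ (LinearMap.range (B t₀))))
    (Fin (finrank ℂ (LinearMap.range (B t₀)))) ℂ := fun t i j => L (B t (v i)) j
  have hM0 : M t₀ = 1 := by
    ext i j
    change L (B t₀ (v i)) j = _
    rw [hv, ← hιb]
    have h1 : L (ι (Pi.single i 1)) = Pi.single i 1 := by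
      have := LinearMap.congr_fun hL (Pi.single i 1)
      simpa using this
    rw [h1, Matrix.one_apply, Pi.single_apply]
    by_cases h : i = j
    · simp [h]
    · simp [h, Ne.symm h]
  have hpoly : PolyFun (fun t => (M t).det) := by
    refine T1_det fun i j => ?_
    have h1 : (fun t => M t i j) =
        fun t => ∑ j', B t (v i) j' * L (fun l => if j' = l then 1 else 0) j := by
      funext t
      change L (B t (v i)) j = _
      rw [LinearMap.pi_apply_eq_sum_univ L (B t (v i))]
      simp only [Finset.sum_apply, Pi.smul_apply, smul_eq_mul]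
    rw [h1]
    exact PolyFun.sum _ fun j' _ => (hB (v i) j').mul (PolyFun.const _)
  refine (hpoly.finite_zeros (t₀ := t₀) (by rw [hM0]; simp)).subset ?_
  intro t ht
  by_contra hdet
  apply ht
  have hdet' : (M t).det ≠ 0 := hdet
  have hli : LinearIndependent ℂ (fun i => L (B t (v i))) :=
    Matrix.linearIndependent_rows_of_det_ne_zero hdet'
  have hli2 : LinearIndependent ℂ (fun i => (B t).rangeRestrict (v i)) := by
    refine LinearIndependent.of_comp (L ∘ₗ (LinearMap.range (B t)).subtype) ?_
    exact hli
  have h1 := hli2.fintype_card_le_finrank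
  rw [Fintype.card_fin] at h1
  have h2 := LinearMap.finrank_range_add_finrank_ker (B t)
  have h3 := LinearMap.finrank_range_add_finrank_ker (B t₀)
  omega

end Pool.Agent.SV
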